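import Pool.Agent.Lib.MP_f3090c_an.D.FClaim
import Pool.Agent.Lib.MP_f3090c_an.D.OD

/-!
# A harmonic function on the Sierpinski carpet whose energy measure is volume doubling

For every closed, Markovian, regular, conservative, irreducible form on `L²(K, μ)` with domain a
space `F` of continuous functions, which is self-similar and invariant under the symmetries of the
square (`IsCarpetForm`), there is a non-constant function harmonic off the boundary `V_0` of the
unit square whose energy measure is volume doubling with respect to the Euclidean metric.
-/

open MeasureTheory CarpetLib

namespace Pool.Agent.Results.MP_f3090c_an.Doubling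

theorem result (μ : Measure K) [IsFiniteMeasure μ] (hμ : CarpetLib.FullSupport μ) (F : Set Fn)
    (E : Fn → Fn → ℝ) (hE : IsCarpetForm μ F E) :
    ∃ h : Fn, IsHarmonic F E h ∧ NonConst h ∧ (∃ ν : Measure K, IsEnergyMeasure F E h ν) ∧
      ∀ ν : Measure K, IsEnergyMeasure F E h ν → IsDoubling ν :=
  exists_doubling_of (fun S => exists_od S) μ hμ F E hE

end Pool.Agent.Results.MP_f3090c_an.Doubling
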